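import Pool.Agent.N848.OL.Stm

/-!
Project OL (helper848), part APP: one `y` for all primes above `u` (after LT/APX of helper186).
-/

set_option autoImplicit false

namespace Pool.Agent.N75.OL.APP

open NumberField IsDedekindDomain Module Pool.Agent.N848.LT

theorem finite_above {F K : Type} [Field F] [NumberField F] [Field K] [NumberField K]
    [Algebra F K] (u : HeightOneSpectrum (𝓞 F)) :
    {v : HeightOneSpectrum (𝓞 K) | Ab v u}.Finite := by
  obtain ⟨a, ha, ha0⟩ := Submodule.exists_mem_ne_zero_of_ne_bot u.ne_bot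
  have hne : (Ideal.span {algebraMap (𝓞 F) (𝓞 K) a} : Ideal (𝓞 K)) ≠ 0 := by
    rw [Ne, Ideal.zero_eq_bot, Ideal.span_singleton_eq_bot]
    intro h
    apply ha0
    exact (FaithfulSMul.algebraMap_injective (𝓞 F) (𝓞 K)) (by rw [h, map_zero])
  refine (Ideal.finite_factors hne).subset ?_
  intro v hv
  show v.asIdeal ∣ _
  rw [Ideal.dvd_span_singleton]
  have h1 : a ∈ v.asIdeal.comap (algebraMap (𝓞 F) (𝓞 K)) := by
    rw [show v.asIdeal.comap (algebraMap (𝓞 F) (𝓞 K)) = u.asIdeal from hv]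
    exact ha
  exact h1

/-- high powers are small -/
theorem exists_pow {K : Type} [Field K] [NumberField K] (v : HeightOneSpectrum (𝓞 K)) (t : 𝓞 K)
    (ht : t ≠ 0) : ∃ N : ℕ, ∀ z ∈ v.asIdeal ^ N,
      v.valuation K (z : K) < v.valuation K (t : K) := by
  refine ⟨(Associates.mk v.asIdeal).count (Associates.mk (Ideal.span {t} : Ideal (𝓞 K))).factors
    + 1, fun z hz => ?_⟩
  have h1 := (v.intValuation_le_pow_iff_mem z _).2 hz
  have e1 : v.valuation K (z : K) = v.intValuation z := v.valuation_of_algebraMap z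
  have e2 : v.valuation K (t : K) = v.intValuation t := v.valuation_of_algebraMap t
  rw [e1, e2, v.intValuation_if_neg ht]
  refine lt_of_le_of_lt h1 ?_
  rw [WithZero.exp_lt_exp]
  push_cast
  omega

theorem val_pow_le {K : Type} [Field K] [NumberField K] (v : HeightOneSpectrum (𝓞 K)) (p M : ℕ) :
    v.valuation K ((p : K) ^ M) ≤ 1 := by
  have := v.valuation_le_one (K := K) ((p : 𝓞 K) ^ M)
  change v.valuation K (algebraMap (𝓞 K) K ((p : 𝓞 K) ^ M)) ≤ 1 at this
  rwa [map_pow, map_natCast] at this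

/-- the local computation -/
theorem local_step {K : Type} [Field K] [NumberField K] (p M : ℕ) (v : HeightOneSpectrum (𝓞 K))
    (x y₀ y : K) (h1 : v.valuation K (x * y₀ ^ p) = 1)
    (h2 : v.valuation K (x * y₀ ^ p - 1) ≤ v.valuation K ((p : K) ^ M))
    (e : K) (he : v.valuation K e < v.valuation K ((p : K) ^ M)) (hy : y = y₀ * (1 + e)) :
    v.valuation K (x * y ^ p) = 1 ∧
      v.valuation K (x * y ^ p - 1) ≤ v.valuation K ((p : K) ^ M) := by
  have he1 : v.valuation K e < 1 := lt_of_lt_of_le he (val_pow_le v p M)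
  have hu : v.valuation K (1 + e) = 1 := Valuation.map_one_add_of_lt _ he1
  have hxy : x * y ^ p = x * y₀ ^ p * (1 + e) ^ p := by
    rw [hy, mul_pow]
    ring
  refine ⟨?_, ?_⟩
  · rw [hxy, map_mul, map_pow, hu, h1]
    simp
  · have hg : (1 + e) ^ p - 1 = (∑ i ∈ Finset.range p, (1 + e) ^ i) * e := by
      have := geom_sum_mul (1 + e) p
      rw [← this]
      ring
    have hd : x * y ^ p - 1 = (x * y₀ ^ p - 1) * (1 + e) ^ p +
        (∑ i ∈ Finset.range p, (1 + e) ^ i) * e := by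
      rw [hxy, ← hg]
      ring
    rw [hd]
    refine (Valuation.map_add _ _ _).trans (max_le ?_ ?_)
    · rw [map_mul, map_pow, hu, one_pow, mul_one]
      exact h2
    · rw [map_mul]
      have hs : v.valuation K (∑ i ∈ Finset.range p, (1 + e) ^ i) ≤ 1 := by
        refine Valuation.map_sum_le _ fun i _ => ?_
        rw [map_pow, hu, one_pow]
      exact (mul_le_of_le_one_left zero_le hs).trans he.le

theorem t_APP : Pool.Agent.N848.OL.S_APP := by
  intro p hp F K _ _ _ _ _ u x M hx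
  classical
  have hp0 : (p : 𝓞 K) ^ M ≠ 0 := pow_ne_zero _ (by
    exact_mod_cast hp.out.ne_zero)
  have hfin := finite_above (K := K) u
  set S := hfin.toFinset with hS
  have hSm : ∀ v, v ∈ S ↔ Ab v u := fun v => by rw [hS, Set.Finite.mem_toFinset]; rfl
  have hch : ∀ v : HeightOneSpectrum (𝓞 K), ∃ y : K, Ab v u →
      v.valuation K (x * y ^ p) = 1 ∧
        v.valuation K (x * y ^ p - 1) ≤ v.valuation K ((p : K) ^ M) := by
    intro v
    by_cases h : Ab v u
    · obtain ⟨y, hy⟩ := hx v h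
      exact ⟨y, fun _ => hy⟩
    · exact ⟨0, fun h' => absurd h' h⟩
  choose y₀ hy₀ using hch
  obtain ⟨d, hd⟩ := IsLocalization.exist_integer_multiples (nonZeroDivisors (𝓞 K)) S y₀
  have hd0 : ((d : 𝓞 K) : K) ≠ 0 := by
    have h1 : (d : 𝓞 K) ≠ 0 := nonZeroDivisors.coe_ne_zero d
    exact fun h => h1 (RingOfIntegers.coe_eq_zero_iff.1 h)
  have hch2 : ∀ v : HeightOneSpectrum (𝓞 K), ∃ a : 𝓞 K, v ∈ S → (a : K) = (d : 𝓞 K) * y₀ v := by
    intro v
    by_cases h : v ∈ S
    · obtain ⟨a, ha⟩ := hd v h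
      refine ⟨a, fun _ => ?_⟩
      rw [Algebra.smul_def] at ha
      exact ha
    · exact ⟨0, fun h' => absurd h' h⟩
  choose a ha using hch2
  have hy00 : ∀ v ∈ S, y₀ v ≠ 0 := by
    intro v hv h
    have h1 := (hy₀ v ((hSm v).1 hv)).1
    rw [h, zero_pow hp.out.ne_zero] at h1
    simp at h1
  have ha0 : ∀ v ∈ S, a v ≠ 0 := by
    intro v hv h
    have h1 := ha v hv
    rw [h] at h1
    have h2 : (d : 𝓞 K) * y₀ v = 0 := by rw [← h1]; rfl
    exact (mul_ne_zero hd0 (hy00 v hv)) h2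
  have hch3 : ∀ v : HeightOneSpectrum (𝓞 K), ∃ N : ℕ, v ∈ S → ∀ z ∈ v.asIdeal ^ N,
      v.valuation K (z : K) < v.valuation K (((p : 𝓞 K) ^ M * a v : 𝓞 K) : K) := by
    intro v
    by_cases h : v ∈ S
    · obtain ⟨N, hN⟩ := exists_pow v ((p : 𝓞 K) ^ M * a v) (mul_ne_zero hp0 (ha0 v h))
      exact ⟨N, fun _ => hN⟩
    · exact ⟨0, fun h' => absurd h' h⟩
  choose N hN using hch3
  obtain ⟨b, hb⟩ := IsDedekindDomain.exists_forall_sub_mem_ideal (s := S)
    (fun v : HeightOneSpectrum (𝓞 K) => v.asIdeal) N (fun v _ => v.prime)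
    (fun v _ w _ hvw h => hvw (HeightOneSpectrum.ext h)) (fun v => a v.1)
  refine ⟨(b : K) / (d : 𝓞 K), fun v hv => ?_⟩
  have hvS : v ∈ S := (hSm v).2 hv
  have hlt := hN v hvS _ (hb v hvS)
  have hav : ((a v : 𝓞 K) : K) ≠ 0 := fun h => ha0 v hvS (RingOfIntegers.coe_eq_zero_iff.1 h)
  have hva : v.valuation K ((a v : 𝓞 K) : K) ≠ 0 := (Valuation.ne_zero_iff _).2 hav
  refine local_step p M v x (y₀ v) _ (hy₀ v hv).1 (hy₀ v hv).2
    ((b - a v : 𝓞 K) / (a v : K)) ?_ ?_
  · rw [map_div₀, div_lt_iff₀ (zero_lt_iff.2 hva), ← map_mul]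
    have e3 : (((p : 𝓞 K) ^ M * a v : 𝓞 K) : K) = (p : K) ^ M * (a v : K) := by
      push_cast
      rfl
    rw [← e3]
    exact hlt
  · have h5 := ha v hvS
    have e4 : ((b - a v : 𝓞 K) : K) = (b : K) - (a v : K) := by push_cast; rfl
    rw [e4]
    have e5 : y₀ v = (a v : K) / (d : 𝓞 K) := by
      rw [h5]; field_simp
    rw [e5]
    field_simp
    ring

end Pool.Agent.N75.OL.APP
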